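import Mathlib
import Pool.Agent.Lib.Pd97.Main

/-!
# MP_d97cc3_co, full answer: the genus of `K_m + K_n` for all `m ≥ n ≥ 2`

Lower bound: Euler's formula. Upper bound: a triangular (or nearly triangular) embedding of `K_m`
and one of `K_n`, found by index one, two, three and six current graphs for all residues modulo 12,
are glued along all the vertices of `K_n` by tubes and slits.
-/

namespace Pool.Agent.Results.MP_d97cc3_co.GenusKmPlusKn

open Pd97

/-- For all `m ≥ n ≥ 2` the genus of `K_m + K_n` is `⌈((m - 3)(m - 4) + n (n - 1)) / 12⌉`. -/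
theorem result (m n : ℕ) (hn : 2 ≤ n) (hnm : n ≤ m) :
    (gamma (K m n 2) : ℤ) = ⌈(((m : ℚ) - 3) * (m - 4) + n * (n - 1)) / 12⌉ :=
  gamma_K m n hn hnm

end Pool.Agent.Results.MP_d97cc3_co.GenusKmPlusKn
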